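import Pool.Agent.Helper36.VC.St

set_option autoImplicit false

open Cardinal Ordinal Set Filter

universe u

namespace Pool.Agent.Helper69.VC

open Pool.Agent.Helper65.GS Pool.Agent.Helper36.VC

theorem pCOA : StCOA.{u} := by
  classical
  intro X κ W A t l f h htl g0 hg0 C d H1 H2 B hB hpB g hg
  have hX : #X = #κ.ord.ToType := by rw [h.card, mk_toType, card_ord]
  obtain ⟨e⟩ := Cardinal.eq.1 hX
  set idx : X → Ordinal.{u} := fun x => ((e x).toOrd : Ordinal.{u}) with hidx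
  have hidl : ∀ x, idx x < κ.ord := fun x => (e x).toOrd.2
  have hidi : Function.Injective idx := fun x y hxy =>
    e.injective (ToType.mk.symm.injective (Subtype.ext hxy))
  have ht0 : 0 < t := by
    have h0 : (0 : Ordinal.{u}) < κ.ord := by
      rw [Cardinal.lt_ord, Ordinal.card_zero]
      exact lt_of_lt_of_le Cardinal.aleph0_pos h.unc.le
    exact h0.trans_le h.kt
  set y : Ordinal.{u} → Ordinal.{u} := fun n => if hh : ∃ x ∈ B, idx x = n then g hh.choose else 0 with hy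
  have hyt : ∀ n, y n < t := by
    intro n
    by_cases hh : ∃ x ∈ B, idx x = n
    · rw [hy]; simp only [dif_pos hh]
      exact hg _ hh.choose_spec.1
    · rw [hy]; simp only [dif_neg hh]; exact ht0
  have hyg : ∀ x ∈ B, y (idx x) = g x := by
    intro x hx
    have hh : ∃ x' ∈ B, idx x' = idx x := ⟨x, hx, rfl⟩
    rw [hy]; simp only [dif_pos hh]
    rw [hidi hh.choose_spec.2]
  -- step 2
  have s2 : ∀ᶠ x in W, x ∈ A → ∀ n < f κ.ord x, f (y n) x < f t x := by
    by_contra hcon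
    have hpos : Pos W {x ∈ A | ¬ ∀ n < f κ.ord x, f (y n) x < f t x} := by
      intro hc
      apply hcon
      filter_upwards [hc] with x hx hxA
      by_contra hne
      exact hx ⟨hxA, hne⟩
    have hch : ∀ x, ∃ n, x ∈ {x ∈ A | ¬ ∀ n < f κ.ord x, f (y n) x < f t x} →
        n < f κ.ord x ∧ ¬ f (y n) x < f t x := by
      intro x
      by_cases hx : x ∈ {x ∈ A | ¬ ∀ n < f κ.ord x, f (y n) x < f t x}
      · obtain ⟨n, hn⟩ := not_forall.1 hx.2
        obtain ⟨hn1, hn2⟩ := Classical.not_imp.1 hn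
        exact ⟨n, fun _ => ⟨hn1, hn2⟩⟩
      · exact ⟨0, fun hx' => absurd hx' hx⟩
    choose nn hnn using hch
    obtain ⟨a, ha, ha2⟩ := h.loc (fun x hx => hx.1) hpos (g := nn) (fun x hx => (hnn x hx).1)
    have h3 := ha2.ae (p := fun x => f (y a) x < f t x)
      ((h.rep.inc (y a) t (hyt a) htl).mono fun x hx hxB => hx hxB.1.1)
    obtain ⟨x, hx⟩ := h3.nonempty
    have h4 := (hnn x hx.1.1).2
    rw [hx.1.2] at h4
    exact h4 hx.2
  set A1 : Set X := {x ∈ A | ∀ n < f κ.ord x, f (y n) x < f t x} with hA1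
  have hA1p : Pos W A1 := h.pos.ae s2
  have hch : ∀ x, ∃ (b : Ordinal.{u}) (I : Ordinal.{u} → Ordinal.{u}), x ∈ A1 → b < f κ.ord x ∧
      (∀ n < b, I n < f g0 x) ∧
      ∀ e < f κ.ord x, ∃ n < b, ∃ e' < f κ.ord x, f (y e) x = C x (I n) e' := by
    intro x
    by_cases hx : x ∈ A1
    · obtain ⟨b, hb, I, hI, hI2⟩ := H1 x hx.1 (fun n => f (y n) x) hx.2
      exact ⟨b, I, fun _ => ⟨hb, hI, hI2⟩⟩
    · exact ⟨0, fun _ => 0, fun hx' => absurd hx' hx⟩
  choose bb II hbI using hch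
  obtain ⟨b, hbk, hB1p⟩ := h.loc (fun x hx => hx.1) hA1p (g := bb) (fun x hx => (hbI x hx).1)
  set B1 : Set X := {x ∈ A1 | bb x = b} with hB1
  have hB1A : B1 ⊆ A := fun x hx => hx.1.1
  set S : Ordinal.{u} → Set Ordinal.{u} := fun n => {i | i ∈ Iio g0 ∧ Pos W {x ∈ B1 | f i x = II x n}} with hS
  have hSc : ∀ n, (S n).Countable := by
    intro n
    refine countable_of_ae_ne (W := W) (B := B1) h.sat (Iio g0) f ?_ (fun x => II x n)
    intro a ha b' hb' hab
    rcases lt_or_gt_of_ne hab with h1 | h1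
    · filter_upwards [h.rep.inc a b' h1 (lt_trans hb' hg0)] with x hx hxB
      exact (hx (hB1A hxB)).ne
    · filter_upwards [h.rep.inc b' a h1 (lt_trans ha hg0)] with x hx hxB
      exact (hx (hB1A hxB)).ne'
  have claim : ∀ m < κ.ord, ∃ n < b, ∃ i ∈ S n, ∃ ε < κ.ord, d i ε = y m := by
    intro m hm
    have hp1 : Pos W {x ∈ B1 | m < f κ.ord x} :=
      hB1p.ae ((h.lt_k hm).mono fun x hx hxB => hx (hB1A hxB))
    obtain ⟨n, hn, hp2⟩ := h.cover hp1 hbk
      (p := fun n x => ∃ e' < f κ.ord x, f (y m) x = C x (II x n) e') (by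
        intro x hx
        obtain ⟨n, hn, e', he', he⟩ := (hbI x hx.1.1).2.2 m hx.2
        have hbx : bb x = b := hx.1.2
        rw [hbx] at hn
        exact ⟨n, hn, e', he', he⟩)
    have hp3 := hp2.ae (p := fun x => f g0 x < t)
      ((h.rep.bd g0 hg0).mono fun x hx hxB => hx (hB1A hxB.1.1))
    have hlt : ∀ x ∈ B1, II x n < f g0 x := by
      intro x hx
      refine (hbI x hx.1).2.1 n ?_
      have hbx : bb x = b := hx.2
      rw [hbx]; exact hn
    obtain ⟨i, hil, hp4⟩ := h.rep.onto _ (fun x hx => hB1A hx.1.1.1) hp3 (fun x => II x n)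
      (fun x hx => (hlt x hx.1.1.1).trans hx.2)
    have hig : i < g0 := by
      refine h.rep.lt_of_lt (B := _) (fun x hx => hB1A hx.1.1.1.1) hp4 hil ?_
      intro x hx
      have h5 : II x n = f i x := hx.2
      rw [← h5]
      exact hlt x hx.1.1.1.1
    have hiS : i ∈ S n := ⟨hig, hp4.mono fun x hx => ⟨hx.1.1.1.1, hx.2.symm⟩⟩
    obtain ⟨ε, hε, hε2⟩ := H2 i hig (y m) ((hyt m).trans htl) (hp4.mono fun x hx => by
      obtain ⟨e', he', he⟩ := hx.1.1.2
      refine ⟨hB1A hx.1.1.1.1, e', he', ?_⟩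
      have h5 : II x n = f i x := hx.2
      rw [← h5]; exact he)
    exact ⟨n, hn, i, hiS, ε, hε, hε2⟩
  obtain ⟨n, hn, hp5⟩ := h.cover hpB hbk (p := fun n x => ∃ i ∈ S n, ∃ ε < κ.ord, g x = d i ε) (by
    intro x hx
    obtain ⟨n, hn, i, hi, ε, hε, hε2⟩ := claim (idx x) (hidl x)
    rw [hyg x hx] at hε2
    exact ⟨n, hn, i, hi, ε, hε, hε2.symm⟩)
  obtain ⟨i, hi, hp6⟩ := h.cover_countable hp5 (hSc n) (p := fun i x => ∃ ε < κ.ord, g x = d i ε)
    (fun x hx => hx.2)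
  exact ⟨i, hi.1, hp6.mono fun x hx => ⟨hx.1.1, hx.2⟩⟩

end Pool.Agent.Helper69.VC
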