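import Pool.Agent.Helper36.VC.St

set_option autoImplicit false

open Cardinal Ordinal Set Filter

universe u

namespace Pool.Agent.Helper69.VC

open Pool.Agent.Helper65.GS Pool.Agent.Helper36.VC

/-- countable suprema below an ordinal of uncountable cofinality -/
theorem nat_bd (a : Ordinal.{u}) (ha : ℵ₀ < a.cof) (F : ℕ → Ordinal.{u}) (hF : ∀ j, F j < a) :
    ∃ s < a, ∀ j, F j ≤ s := by
  have h1 : #(ULift.{u} ℕ) < a.cof := by simpa using ha
  refine ⟨⨆ j : ULift.{u} ℕ, F j.down, Ordinal.iSup_lt_of_lt_cof h1 fun j => hF _, fun j => ?_⟩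
  exact Ordinal.le_iSup (fun j : ULift.{u} ℕ => F j.down) ⟨j⟩

/-- suprema of fewer than `κ` ordinals below a regular `κ` -/
theorem reg_bd (κ : Cardinal.{u}) (hκ : κ.IsRegular) (b : Ordinal.{u}) (hb : b < κ.ord)
    (F : Ordinal.{u} → Ordinal.{u}) (hF : ∀ n < b, F n < κ.ord) :
    ∃ s < κ.ord, ∀ n < b, F n ≤ s := by
  have h1 : #b.ToType < κ.ord.cof := by
    rw [hκ.cof_ord, mk_toType]
    exact Cardinal.lt_ord.1 hb
  refine ⟨⨆ i : b.ToType, F i.toOrd, Ordinal.iSup_lt_of_lt_cof h1 fun i => hF _ i.toOrd.2, fun n hn => ?_⟩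
  have h2 := Ordinal.le_iSup (fun i : b.ToType => F (i.toOrd : Ordinal.{u})) (ToType.mk ⟨n, hn⟩)
  simpa only [ToType.toOrd, OrderIso.symm_apply_apply] using h2

theorem pNEK : StNEK.{u} := by
  classical
  intro X κ W A t l f h a hak hwa hfc
  obtain ⟨G, hG⟩ := hfc
  obtain ⟨haω, hacof, -⟩ := hwa
  by_contra hcon
  push Not at hcon
  have hX : #X = #κ.ord.ToType := by rw [h.card, mk_toType, card_ord]
  obtain ⟨e⟩ := Cardinal.eq.1 hX
  set idx : X → Ordinal.{u} := fun x => ((e x).toOrd : Ordinal.{u}) with hidx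
  have hidl : ∀ x, idx x < κ.ord := fun x => (e x).toOrd.2
  have hidi : Function.Injective idx := fun x y hxy =>
    e.injective (ToType.mk.symm.injective (Subtype.ext hxy))
  have hY : ∀ x : X, ∃ y : Ordinal.{u} → Ordinal.{u}, (∀ m < a, y m < a) ∧
      ∀ b < a, ∀ I : Ordinal.{u} → Ordinal.{u}, (∀ n < b, I n < idx x) →
        ∃ m < a, ∀ n < b, y m ≠ G (I n) m := by
    intro x
    by_contra hc
    apply hcon (idx x) (hidl x)
    refine ⟨G, fun y hy => ?_⟩
    by_contra hc2
    apply hc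
    refine ⟨y, hy, fun b hb I hI => ?_⟩
    by_contra hc3
    apply hc2
    refine ⟨b, hb, I, hI, fun m hm => ?_⟩
    by_contra hc4
    apply hc3
    refine ⟨m, hm, fun n hn hne => hc4 ⟨n, hn, hne⟩⟩
  choose Y hY1 hY2 using hY
  set V : Ordinal.{u} → Set Ordinal.{u} := fun m => {v | v ∈ Iio a ∧ Pos W {x ∈ A | v = Y x m}} with hV
  have hVc : ∀ m, (V m).Countable := fun m =>
    countable_of_ae_ne (W := W) (B := A) h.sat (Iio a) (fun v _ => v)
      (fun _ _ _ _ hab => Eventually.of_forall fun _ _ => hab) (fun x => Y x m)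
  have hVa : ∀ m < a, ∀ᶠ x in W, x ∈ A → Y x m ∈ V m := by
    intro m hm
    by_contra hc
    have hpos : Pos W {x ∈ A | ¬ Y x m ∈ V m} := by
      intro hc2
      apply hc
      filter_upwards [hc2] with x hx hxA
      by_contra hne
      exact hx ⟨hxA, hne⟩
    obtain ⟨v, hv, hv2⟩ := h.cover hpos hak (p := fun v x => v = Y x m)
      (fun x _ => ⟨Y x m, hY1 x m hm, rfl⟩)
    obtain ⟨x, hx⟩ := hv2.nonempty
    apply hx.1.2
    have h1 : v = Y x m := hx.2
    rw [← h1]
    exact ⟨hv, hv2.mono fun y hy => ⟨hy.1.1, hy.2⟩⟩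
  have hall := h.all hak hVa
  have hVne : ∀ m < a, (V m).Nonempty := by
    intro m hm
    obtain ⟨x, hx⟩ := (h.pos.ae (hVa m hm)).nonempty
    exact ⟨_, hx.2⟩
  have hven : ∀ m : Ordinal.{u}, ∃ v : ℕ → Ordinal.{u}, m < a → V m = range v := by
    intro m
    by_cases hm : m < a
    · obtain ⟨v, hv⟩ := (hVc m).exists_eq_range (hVne m hm)
      exact ⟨v, fun _ => hv⟩
    · exact ⟨fun _ => 0, fun h => absurd h hm⟩
  choose v hv using hven
  have hva : ∀ (j : ℕ) (m : Ordinal.{u}), m < a → v m j < a := by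
    intro j m hm
    have : v m j ∈ V m := by rw [hv m hm]; exact ⟨j, rfl⟩
    exact this.1
  choose bb hbb II hII hcov using fun j : ℕ => hG (fun m => v m j) (hva j)
  have hacof' : ℵ₀ < a.cof := by
    rw [← Cardinal.ord_lt_ord, hacof, ord_aleph0]
    exact haω
  obtain ⟨b, hba, hb⟩ := nat_bd a hacof' bb hbb
  choose sj hsj hsj2 using fun j : ℕ => reg_bd κ h.reg (bb j) ((hbb j).trans hak) (II j) (hII j)
  have hκcof : ℵ₀ < κ.ord.cof := by rw [h.reg.cof_ord]; exact h.unc
  obtain ⟨s, hsκ, hs⟩ := nat_bd κ.ord hκcof sj hsj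
  -- large indices
  have hlarge : ∀ᶠ x in W, x ∈ A → s < idx x := by
    by_contra hc
    have hpos : Pos W {x ∈ A | ¬ s < idx x} := by
      intro hc2
      apply hc
      filter_upwards [hc2] with x hx hxA
      by_contra hne
      exact hx ⟨hxA, hne⟩
    have hs1 : Order.succ s < κ.ord := by
      have hlim : Order.IsSuccLimit κ.ord := Cardinal.isSuccLimit_ord h.unc.le
      exact hlim.succ_lt hsκ
    obtain ⟨n, hn, hn2⟩ := h.cover hpos hs1 (p := fun n x => idx x = n)
      (fun x hx => ⟨idx x, Order.lt_succ_of_le (not_lt.1 hx.2), rfl⟩)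
    obtain ⟨x, hx⟩ := hn2.nonempty
    apply hn2
    refine mem_of_superset (h.non x) ?_
    intro y hy hy2
    apply hy
    have h1 : idx y = idx x := by
      have h2 : idx y = n := hy2.2
      have h3 : idx x = n := hx.2
      rw [h2, h3]
    exact hidi h1
  obtain ⟨x, hx⟩ := (h.pos.ae ((hall.and hlarge).mono fun x hx hxA =>
    And.intro (fun m hm => hx.1 m hm hxA) (hx.2 hxA))).nonempty
  obtain ⟨hxA, hxV, hxs⟩ := hx
  -- the list
  set jj : Ordinal.{u} → ℕ := fun n => Cardinal.toNat (n % ω).card with hjj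
  set I : Ordinal.{u} → Ordinal.{u} := fun n => if n / ω < bb (jj n) then II (jj n) (n / ω) else 0 with hI
  have hIlt : ∀ n, I n < idx x := by
    intro n
    rw [hI]
    by_cases hn : n / ω < bb (jj n)
    · simp only [if_pos hn]
      exact ((hsj2 _ _ hn).trans (hs _)).trans_lt hxs
    · simp only [if_neg hn]
      exact lt_of_le_of_lt (bot_le) hxs
  have hcc : ℵ₀ ≤ a.cof := hacof'.le
  have hb' : ω * Order.succ b < a := by
    have h1 := Ordinal.isPrincipal_mul_ord hcc
    rw [hacof] at h1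
    have hlim : Order.IsSuccLimit a := by
      rw [← hacof]
      exact Cardinal.isSuccLimit_ord hcc
    exact h1 haω (hlim.succ_lt hba)
  obtain ⟨m, hm, hm2⟩ := hY2 x (ω * Order.succ b) hb' I (fun n _ => hIlt n)
  have hmV := hxV m hm
  rw [hv m hm] at hmV
  obtain ⟨j, hj⟩ := hmV
  obtain ⟨n, hn, hn2⟩ := hcov j m hm
  have hω : (ω : Ordinal.{u}) ≠ 0 := omega0_ne_zero
  have hjω : ((j : ℕ) : Ordinal.{u}) < ω := natCast_lt_omega0 j
  have e1 : (ω * n + (j : Ordinal.{u})) / ω = n := by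
    rw [mul_add_div _ hω, div_eq_zero_of_lt hjω, add_zero]
  have e2 : (ω * n + (j : Ordinal.{u})) % ω = j := by
    rw [mul_add_mod_self, mod_eq_of_lt hjω]
  have e3 : jj (ω * n + (j : Ordinal.{u})) = j := by
    rw [hjj]
    simp only [e2, card_nat, toNat_natCast]
  have e4 : I (ω * n + (j : Ordinal.{u})) = II j n := by
    rw [hI]
    simp only [e1, e3, if_pos hn]
  have e5 : ω * n + (j : Ordinal.{u}) < ω * Order.succ b := by
    have h1 : ω * n + (j : Ordinal.{u}) < ω * Order.succ n := by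
      rw [mul_succ]
      exact (add_lt_add_iff_left _).2 hjω
    refine h1.trans_le (mul_le_mul_right ?_ _)
    exact Order.succ_le_succ (hn.le.trans (hb j))
  apply hm2 _ e5
  rw [e4, ← hj]
  exact hn2

end Pool.Agent.Helper69.VC
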